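import Pool.Agent.helper13.RF.SpecU

set_option autoImplicit false

namespace Pool.Agent.RF

open NumberField

section

variable {R : Type} [CommRing R] [IsDomain R]

omit [IsDomain R] in
theorem YL0_pow {π : R} (hπ : Prime π) (a : R) (n : ℕ) (h : ¬ π ∣ a) : ¬ π ∣ a ^ n := fun h' => h (hπ.dvd_of_dvd_pow h')

omit [IsDomain R] in
theorem YL0_mul {π : R} (hπ : Prime π) (a b : R) (h : ¬ π ∣ a) (h' : ¬ π ∣ b) : ¬ π ∣ a * b := fun g => (hπ.dvd_or_dvd g).elim h h'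

/-- case A -/
theorem YL0_A {π : R} (hπ : Prime π) (h5 : ¬ π ∣ (5 : R)) (W a b : R) (J : ℕ)
    (h1 : π ^ J ∣ b * (5 * a ^ 4 + 10 * a ^ 2 * b ^ 2 * W + b ^ 4 * W ^ 2)) (h2 : ¬ π ∣ a ^ 2 - b ^ 2 * W)
    (hb : π ∣ b) : π ^ J ∣ b := by
  have ha : ¬ π ∣ a := by
    intro h
    apply h2
    exact dvd_sub (dvd_pow h two_ne_zero) ((dvd_pow hb two_ne_zero).mul_right W)
  refine hπ.pow_dvd_of_dvd_mul_right J ?_ h1
  intro h
  apply YL0_mul hπ _ _ h5 (YL0_pow hπ a 4 ha)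
  have e : 5 * a ^ 4 = (5 * a ^ 4 + 10 * a ^ 2 * b ^ 2 * W + b ^ 4 * W ^ 2) - b * (10 * a ^ 2 * b * W + b ^ 3 * W ^ 2) := by ring
  rw [e]
  exact dvd_sub h (hb.mul_right _)

/-- case B -/
theorem YL0_B {π : R} (hπ : Prime π) (s : R) (hs : s * s = 5) (h2' : ¬ π ∣ (4 : R)) (h5 : ¬ π ∣ s) (hm : ¬ π ∣ s - 2) (hp : ¬ π ∣ s + 2)
    (W a b : R) (J : ℕ) (hJ : 1 ≤ J)
    (h1 : π ^ J ∣ b * (5 * a ^ 4 + 10 * a ^ 2 * b ^ 2 * W + b ^ 4 * W ^ 2)) (h2 : ¬ π ∣ a ^ 2 - b ^ 2 * W)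
    (hb : ¬ π ∣ b) :
    ¬ π ∣ a ∧
      (π ∣ s * a ^ 2 + (s - 2) * (b ^ 2 * W) → π ^ J ∣ s * a ^ 2 + (s - 2) * (b ^ 2 * W)) ∧
      (¬ π ∣ s * a ^ 2 + (s - 2) * (b ^ 2 * W) → π ^ J ∣ s * a ^ 2 + (s + 2) * (b ^ 2 * W)) := by
  have hH : π ^ J ∣ 5 * a ^ 4 + 10 * a ^ 2 * b ^ 2 * W + b ^ 4 * W ^ 2 := hπ.pow_dvd_of_dvd_mul_left J hb h1
  have e : 5 * a ^ 4 + 10 * a ^ 2 * b ^ 2 * W + b ^ 4 * W ^ 2 = (s * a ^ 2 + (s - 2) * (b ^ 2 * W)) * (s * a ^ 2 + (s + 2) * (b ^ 2 * W)) := by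
    linear_combination (-(a ^ 4) - 2 * a ^ 2 * b ^ 2 * W - b ^ 4 * W ^ 2) * hs
  rw [e] at hH
  have hH1 : π ∣ (s * a ^ 2 + (s - 2) * (b ^ 2 * W)) * (s * a ^ 2 + (s + 2) * (b ^ 2 * W)) := (dvd_pow_self π (by omega)).trans hH
  have hW : ¬ π ∣ W := by
    intro hW
    have ha : ¬ π ∣ a := by
      intro h
      exact h2 (dvd_sub (dvd_pow h two_ne_zero) (hW.mul_left _))
    have hsa : ¬ π ∣ s * a ^ 2 := YL0_mul hπ _ _ h5 (YL0_pow hπ a 2 ha)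
    rcases hπ.dvd_or_dvd hH1 with h | h
    · apply hsa
      exact (dvd_add_left ((hW.mul_left _).mul_left _)).mp h
    · apply hsa
      exact (dvd_add_left ((hW.mul_left _).mul_left _)).mp h
  have hbW : ¬ π ∣ b ^ 2 * W := YL0_mul hπ _ _ (YL0_pow hπ b 2 hb) hW
  refine ⟨?_, ?_, ?_⟩
  · intro ha
    have ha2 : π ∣ s * a ^ 2 := (dvd_pow ha two_ne_zero).mul_left s
    rcases hπ.dvd_or_dvd hH1 with h | h
    · exact YL0_mul hπ _ _ hm hbW ((dvd_add_right ha2).mp h)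
    · exact YL0_mul hπ _ _ hp hbW ((dvd_add_right ha2).mp h)
  · intro h
    refine hπ.pow_dvd_of_dvd_mul_right J ?_ hH
    intro h6
    apply YL0_mul hπ _ _ h2' hbW
    have h7 := dvd_sub h6 h
    rwa [show (s * a ^ 2 + (s + 2) * (b ^ 2 * W)) - (s * a ^ 2 + (s - 2) * (b ^ 2 * W)) = 4 * (b ^ 2 * W) by ring] at h7
  · intro h
    exact hπ.pow_dvd_of_dvd_mul_left J h hH

/-- two elements of the same class -/
theorem YL0_two {π : R} (hπ : Prime π) (s u : R) (hs' : ¬ π ∣ s) (h2 : ¬ π ∣ (2 : R)) (W a b a1 b1 : R) (J : ℕ)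
    (h : π ^ J ∣ s * a ^ 2 + u * (b ^ 2 * W)) (h' : π ^ J ∣ s * a1 ^ 2 + u * (b1 ^ 2 * W)) (ha : ¬ π ∣ a) (hb : ¬ π ∣ b1) :
    (π ∣ a * b1 - a1 * b → π ^ J ∣ a * b1 - a1 * b) ∧ (¬ π ∣ a * b1 - a1 * b → π ^ J ∣ a * b1 + a1 * b) := by
  have e : s * ((a * b1 - a1 * b) * (a * b1 + a1 * b)) = b1 ^ 2 * (s * a ^ 2 + u * (b ^ 2 * W)) - b ^ 2 * (s * a1 ^ 2 + u * (b1 ^ 2 * W)) := by ring
  have h3 : π ^ J ∣ s * ((a * b1 - a1 * b) * (a * b1 + a1 * b)) := by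
    rw [e]
    exact dvd_sub (h.mul_left _) (h'.mul_left _)
  have h4 := hπ.pow_dvd_of_dvd_mul_left J hs' h3
  have h2ab : ¬ π ∣ 2 * (a * b1) := YL0_mul hπ _ _ h2 (YL0_mul hπ _ _ ha hb)
  constructor
  · intro hD
    refine hπ.pow_dvd_of_dvd_mul_right J ?_ h4
    intro hS
    apply h2ab
    have h5 := dvd_add hD hS
    rwa [show (a * b1 - a1 * b) + (a * b1 + a1 * b) = 2 * (a * b1) by ring] at h5
  · intro hD
    exact hπ.pow_dvd_of_dvd_mul_left J hD h4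

/-- two elements with the same sign with respect to the reference -/
theorem YL0_same {π : R} (hπ : Prime π) (s u : R) (hs' : ¬ π ∣ s) (h2 : ¬ π ∣ (2 : R)) (W a b a1 b1 a0 b0 : R) (J : ℕ)
    (h : π ^ J ∣ s * a ^ 2 + u * (b ^ 2 * W)) (h' : π ^ J ∣ s * a1 ^ 2 + u * (b1 ^ 2 * W)) (h0 : π ^ J ∣ s * a0 ^ 2 + u * (b0 ^ 2 * W))
    (ha : ¬ π ∣ a) (ha1 : ¬ π ∣ a1) (hb0 : ¬ π ∣ b0)
    (hsg : π ∣ a * b0 - a0 * b ↔ π ∣ a1 * b0 - a0 * b1) : π ^ J ∣ a * b1 - a1 * b := by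
  obtain ⟨p1, p2⟩ := YL0_two hπ s u hs' h2 W a b a0 b0 J h h0 ha hb0
  obtain ⟨q1, q2⟩ := YL0_two hπ s u hs' h2 W a1 b1 a0 b0 J h' h0 ha1 hb0
  refine hπ.pow_dvd_of_dvd_mul_right J hb0 ?_
  by_cases hD : π ∣ a * b0 - a0 * b
  · have r1 := p1 hD
    have r2 := q1 (hsg.1 hD)
    rw [show (a * b1 - a1 * b) * b0 = b1 * (a * b0 - a0 * b) - b * (a1 * b0 - a0 * b1) by ring]
    exact dvd_sub (r1.mul_left _) (r2.mul_left _)
  · have r1 := p2 hD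
    have r2 := q2 (fun h => hD (hsg.2 h))
    rw [show (a * b1 - a1 * b) * b0 = b1 * (a * b0 + a0 * b) - b * (a1 * b0 + a0 * b1) by ring]
    exact dvd_sub (r1.mul_left _) (r2.mul_left _)

end

theorem YL0_r5 : r5 * r5 = (5 : OO) := by
  ext <;> rfl

theorem YL0 (hWEU : WEU_stmt) : YL0_stmt := by
  classical
  have : IsDomain OO := hWEU.1
  intro π W J hπ h2 h5
  have n5 : ¬ π ∣ (5 : OO) := by
    rw [← YL0_r5]
    exact YL0_mul hπ _ _ h5 h5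
  have n4 : ¬ π ∣ (4 : OO) := by
    rw [show (4 : OO) = 2 * 2 by norm_num]
    exact YL0_mul hπ _ _ h2 h2
  have hu : (r5 - 2) * (r5 + 2) = (1 : OO) := by
    linear_combination YL0_r5
  have nm : ¬ π ∣ r5 - 2 := by
    intro h
    have h1 := h.mul_right (r5 + 2)
    rw [hu] at h1
    exact hπ.not_isUnit (isUnit_of_dvd_one h1)
  have np : ¬ π ∣ r5 + 2 := by
    intro h
    have h1 := h.mul_left (r5 - 2)
    rw [hu] at h1
    exact hπ.not_isUnit (isUnit_of_dvd_one h1)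
  obtain ⟨P1, hP1⟩ : ∃ P1 : OO × OO → Prop, P1 = fun x => π ^ J ∣ r5 * x.1 ^ 2 + (r5 - 2) * (x.2 ^ 2 * W) ∧ ¬ π ∣ x.1 ∧ ¬ π ∣ x.2 := ⟨_, rfl⟩
  obtain ⟨P2, hP2⟩ : ∃ P2 : OO × OO → Prop, P2 = fun x => π ^ J ∣ r5 * x.1 ^ 2 + (r5 + 2) * (x.2 ^ 2 * W) ∧ ¬ π ∣ x.1 ∧ ¬ π ∣ x.2 := ⟨_, rfl⟩
  have ex : ∀ P : OO × OO → Prop, ∃ r, ∀ x, P x → P r := by
    intro P
    by_cases h : ∃ x, P x
    · obtain ⟨r, hr⟩ := h
      exact ⟨r, fun _ _ => hr⟩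
    · exact ⟨0, fun x hx => absurd ⟨x, hx⟩ h⟩
  obtain ⟨r1, hr1⟩ := ex P1
  obtain ⟨r2, hr2⟩ := ex P2
  refine ⟨fun x => if π ∣ x.2 then 0 else if π ∣ r5 * x.1 ^ 2 + (r5 - 2) * (x.2 ^ 2 * W) then
    (if π ∣ x.1 * r1.2 - r1.1 * x.2 then 1 else 2) else (if π ∣ x.1 * r2.2 - r2.1 * x.2 then 3 else 4), ?_⟩
  intro x y hx hx' hy hy' hl
  rcases Nat.eq_zero_or_pos J with hJ | hJ
  · rw [hJ, pow_zero]
    exact one_dvd _
  unfold HH at hx hy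
  dsimp only at hl
  by_cases ax : π ∣ x.2
  · by_cases ay : π ∣ y.2
    · have h1 := YL0_A hπ n5 W x.1 x.2 J hx hx' ax
      have h2 := YL0_A hπ n5 W y.1 y.2 J hy hy' ay
      exact dvd_sub (h2.mul_left _) (h1.mul_left _)
    · exfalso
      rw [if_pos ax, if_neg ay] at hl
      revert hl
      split_ifs <;> decide
  · by_cases ay : π ∣ y.2
    · exfalso
      rw [if_neg ax, if_pos ay] at hl
      revert hl
      split_ifs <;> decide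
    · rw [if_neg ax, if_neg ay] at hl
      obtain ⟨xa, xc1, xc2⟩ := YL0_B hπ r5 YL0_r5 n4 h5 nm np W x.1 x.2 J hJ hx hx' ax
      obtain ⟨ya, yc1, yc2⟩ := YL0_B hπ r5 YL0_r5 n4 h5 nm np W y.1 y.2 J hJ hy hy' ay
      by_cases bx : π ∣ r5 * x.1 ^ 2 + (r5 - 2) * (x.2 ^ 2 * W)
      · by_cases by' : π ∣ r5 * y.1 ^ 2 + (r5 - 2) * (y.2 ^ 2 * W)
        · rw [if_pos bx, if_pos by'] at hl
          have hx1 : P1 x := by rw [hP1]; exact ⟨xc1 bx, xa, ax⟩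
          have h0 : P1 r1 := hr1 x hx1
          rw [hP1] at h0
          obtain ⟨h01, h02, h03⟩ := h0
          refine YL0_same hπ r5 (r5 - 2) h5 h2 W x.1 x.2 y.1 y.2 r1.1 r1.2 _ (xc1 bx) (yc1 by') h01 xa ya h03 ?_
          by_cases sx : π ∣ x.1 * r1.2 - r1.1 * x.2
          · by_cases sy : π ∣ y.1 * r1.2 - r1.1 * y.2
            · exact iff_of_true sx sy
            · rw [if_pos sx, if_neg sy] at hl
              exact absurd hl (by decide)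
          · by_cases sy : π ∣ y.1 * r1.2 - r1.1 * y.2
            · rw [if_neg sx, if_pos sy] at hl
              exact absurd hl (by decide)
            · exact iff_of_false sx sy
        · exfalso
          rw [if_pos bx, if_neg by'] at hl
          revert hl
          split_ifs <;> decide
      · by_cases by' : π ∣ r5 * y.1 ^ 2 + (r5 - 2) * (y.2 ^ 2 * W)
        · exfalso
          rw [if_neg bx, if_pos by'] at hl
          revert hl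
          split_ifs <;> decide
        · rw [if_neg bx, if_neg by'] at hl
          have hx1 : P2 x := by rw [hP2]; exact ⟨xc2 bx, xa, ax⟩
          have h0 : P2 r2 := hr2 x hx1
          rw [hP2] at h0
          obtain ⟨h01, h02, h03⟩ := h0
          refine YL0_same hπ r5 (r5 + 2) h5 h2 W x.1 x.2 y.1 y.2 r2.1 r2.2 _ (xc2 bx) (yc2 by') h01 xa ya h03 ?_
          by_cases sx : π ∣ x.1 * r2.2 - r2.1 * x.2
          · by_cases sy : π ∣ y.1 * r2.2 - r2.1 * y.2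
            · exact iff_of_true sx sy
            · rw [if_pos sx, if_neg sy] at hl
              exact absurd hl (by decide)
          · by_cases sy : π ∣ y.1 * r2.2 - r2.1 * y.2
            · rw [if_neg sx, if_pos sy] at hl
              exact absurd hl (by decide)
            · exact iff_of_false sx sy

end Pool.Agent.RF
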