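import Pool.Agent.helper13.RF.SpecM
import Pool.Agent.helper60.RF.NZB

set_option autoImplicit false

namespace Pool.Agent.RF

open NumberField

theorem NZ2 (h1 : TID_stmt) : NZ2_stmt := by
  intro D₀ F _ _ C p q f g hg hp hq hpD hqD hk hne z hz hfix
  obtain ⟨p1, p2, p3, p4, p5, p6, p7, p8, p9⟩ := TRI_pt h1 D₀ F C p f hp hpD
  obtain ⟨q1, q2, q3, q4, q5, q6, q7, q8, q9⟩ := TRI_pt h1 D₀ F C q f hq hqD
  have hf := NZB_pos D₀ f p hp hpD
  have := NZB_dom
  unfold Zr at hz
  set T := C.σ (C.σ (th C f p)) * th C f q with hT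
  have T0 : T ≠ 0 := mul_ne_zero (p9 _ (p9 _ p5)) q5
  have e1 : T ^ 2 * C.σ T = (C.σ (C.σ T)) ^ 2 * C.σ (C.σ (C.σ T)) := by
    have := congrArg (fun x => C.σ (C.σ x)) hz
    simp only [map_mul, map_pow, map_natCast, p6, p7, q6, q7, hfix] at this
    have h2 := hz
    rw [map_mul] at h2
    rw [← h2, this]
  have hTT := NZB_rho C T T0 p8 e1
  -- coefficient of w
  have hw : C.σ (C.σ C.w) = -C.w := by
    have s1 := C.σw
    have s2 := congrArg C.σ s1
    rw [map_mul, C.σι] at s2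
    -- ι(star ph) * σσw = σ w
    have s3 : C.ι (ph * star ph) * C.σ (C.σ C.w) = C.w := by
      rw [map_mul, mul_assoc, s2, s1]
    have s4 : ph * star ph = (-1 : OO) := by
      apply QuadraticAlgebra.ext <;> simp [ph, QuadraticAlgebra.re_one, QuadraticAlgebra.im_one]
    rw [s4, map_neg, map_one] at s3
    linear_combination -s3
  have hθ : C.σ (C.σ (th C f p)) = C.ι p.X - C.ι (25 * p.k) * (f : 𝓞 F) * C.w := by
    unfold th
    simp only [map_add, map_mul C.σ, C.σι, star_star, map_natCast, hw]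
    ring
  have hθ2 : C.σ (C.σ (th C f q)) = C.ι q.X - C.ι (25 * q.k) * (f : 𝓞 F) * C.w := by
    unfold th
    simp only [map_add, map_mul C.σ, C.σι, star_star, map_natCast, hw]
    ring
  have hTT2 : C.σ (C.σ T) = th C f p * C.σ (C.σ (th C f q)) := by
    rw [hT]
    simp only [map_mul, p8]
  rw [hTT2, hT, hθ, hθ2] at hTT
  unfold th at hTT
  have e2 : C.ι 0 + C.ι (2 * (f : OO) * 25 * (p.X * q.k - p.k * q.X)) * C.w = 0 := by
    have : (C.ι p.X - C.ι (25 * p.k) * (f : 𝓞 F) * C.w) * (C.ι q.X + C.ι (25 * q.k) * (f : 𝓞 F) * C.w) -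
      (C.ι p.X + C.ι (25 * p.k) * (f : 𝓞 F) * C.w) * (C.ι q.X - C.ι (25 * q.k) * (f : 𝓞 F) * C.w) = 0 :=
      sub_eq_zero.2 hTT
    rw [← this]
    simp only [map_zero, map_mul, map_sub, map_natCast, map_ofNat]
    ring
  have e3 := (C.ind _ _ e2).2
  have e4 : p.X * q.k = p.k * q.X := by
    have hc : (2 * (f : OO) * 25) ≠ 0 := by
      intro h0
      have h1 : ((50 * f : ℕ) : OO) = 0 := by
        rw [← h0]
        push_cast
        ring
      have := congrArg QuadraticAlgebra.re h1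
      rw [QuadraticAlgebra.re_natCast, QuadraticAlgebra.re_zero] at this
      exact hf (by exact_mod_cast (by simpa using this : (f : ℤ) = 0))
    exact sub_eq_zero.1 ((mul_eq_zero.1 e3).resolve_left hc)
  -- k coprime to X
  have cop : ∀ r : Pt, IsPt r → IsCoprime r.k r.X := by
    intro r hr
    have h2 : IsCoprime r.k (r.n ^ 2 * star r.n) := (hr.kn.pow_right).mul_right hr.kn'
    have h3 : IsCoprime r.k (r.X ^ 2) := by
      rw [← hr.e1] at h2
      have : r.X ^ 2 + w2 * (r.D : OO) * (25 * r.k) ^ 2 = r.X ^ 2 + r.k * (w2 * (r.D : OO) * 625 * r.k) := by ring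
      rw [this] at h2
      exact (IsCoprime.add_mul_left_right_iff).1 h2
    exact (IsCoprime.pow_right_iff (by norm_num)).1 h3
  have hdiv : p.k ∣ q.k := by
    have : p.k ∣ p.X * q.k := by rw [e4]; exact dvd_mul_right _ _
    exact (cop p hp).dvd_of_dvd_mul_left this
  have hdiv2 : q.k ∣ p.k := by
    have : q.k ∣ q.X * p.k := by
      rw [mul_comm q.X, ← e4]
      exact dvd_mul_left _ _
    exact (cop q hq).dvd_of_dvd_mul_left this
  have hkk := hk hdiv hdiv2
  have hX : p.X = q.X := by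
    rw [← hkk, mul_comm p.k] at e4
    exact mul_right_cancel₀ hp.k0 e4
  have hD : p.D = q.D := by rw [hpD, hqD]
  have hn : p.n = q.n := by
    apply NZB_n
    · intro h0
      apply p3
      rw [h0, map_zero]
    · rw [← hp.e1, ← hq.e1, hX, hD, hkk]
  apply hne
  have hM : p.M = q.M := by
    have n0 : p.n ≠ 0 := by
      intro h0
      apply p3
      rw [h0, map_zero]
    apply mul_left_cancel₀ n0
    rw [hp.e2, hX, hkk, hn, hq.e2]
  exact Pt.ext hkk hX hn hM hD

end Pool.Agent.RF
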