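import Pool.Agent.helper33.RF.SpecL

set_option autoImplicit false

namespace Pool.Agent.RF

open NumberField

/-- the primes dividing `f` -/
theorem YAN_l (D f : ℤ) (D₀ : ℤ) (l : ℕ) (h : D = D₀ * f ^ 2) (h20 : D % 20 = 17) (hl : (l : ℤ) ∣ f) : l ≠ 2 ∧ l ≠ 5 := by
  constructor
  · rintro rfl
    obtain ⟨c, hc⟩ := hl
    have h1 : D = 4 * (D₀ * c ^ 2) := by
      rw [h, hc]
      push_cast
      ring
    omega
  · rintro rfl
    obtain ⟨c, hc⟩ := hl
    have h1 : D = 5 * (5 * (D₀ * c ^ 2)) := by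
      rw [h, hc]
      push_cast
      ring
    omega

theorem YAN (hLAB : LAB_stmt) (hYDV : YDV_stmt) (hYTR : YTR_stmt) (hGDV : GDV_stmt) : YAN_stmt := by
  intro D₀ F _ _ C f g hsq hD₀ S hS o ho z hz l hl hlf hlg
  obtain ⟨hoP, hoD, hog⟩ := hS o ho
  obtain ⟨hgf, -, -, hg0'⟩ := hGDV o hoP D₀ f hsq hoD
  rw [hog] at hgf hg0'
  have hg0 : 0 < g := hg0'
  have hf0 : 0 < f := by
    rcases Nat.eq_zero_or_pos f with rfl | h
    · exfalso
      have := hoP.D0
      rw [hoD] at this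
      simp at this
    · exact h
  obtain ⟨hl2, hl5⟩ := YAN_l o.D f D₀ l hoD hoP.D20 (by exact_mod_cast hlf)
  choose a b hab using fun p => C.co (z p)
  obtain ⟨lab, hlab⟩ := hLAB l (-(w2 * (D₀ : OO))) hl hl5
  refine ⟨fun p => lab (a p, b p), ?_⟩
  intro p hp q hq hpq y hy hy2 a' b' hab'
  have hfac : g.factorization l = 0 := Nat.factorization_eq_zero_of_not_dvd hlg
  rw [hfac, mul_zero, Nat.sub_zero]
  have he : 1 ≤ f.factorization l := (hl.dvd_iff_one_le_factorization hf0.ne').1 hlf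
  have hle : l ^ f.factorization l ∣ f := Nat.ordProj_dvd f l
  have hY : ∀ r ∈ S, IsCoprime (l : OO) o.n ∧
      (l : OO) ∣ b r * (5 * a r ^ 4 + 10 * a r ^ 2 * b r ^ 2 * (-(w2 * (D₀ : OO))) + b r ^ 4 * (-(w2 * (D₀ : OO))) ^ 2) := by
    intro r hr
    obtain ⟨hrP, hrD, hrg⟩ := hS r hr
    obtain ⟨hz1, hz2⟩ := hz r hr
    have hA := hYDV D₀ F C o r f hsq hoP hrP hoD hrD (by rw [hog, hrg]) (z r) (by rw [hog]; exact hz1) (by rw [hog]; exact hz2) _ _ (hab r) l 1 hl le_rfl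
      (by rw [pow_one]; exact hlf) (by rw [hog]; exact hlg)
    rw [pow_one] at hA
    exact ⟨hA.1, hA.2.1⟩
  obtain ⟨hpP, hpD, hpg⟩ := hS p hp
  obtain ⟨hqP, hqD, hqg⟩ := hS q hq
  have hB := hYDV D₀ F C p q f hsq hpP hqP hpD hqD (by rw [hpg, hqg]) y (by rw [hpg]; exact hy) (by rw [hpg]; exact hy2) _ _ hab' l _ hl he hle
      (by rw [hpg]; exact hlg)
  apply hB.2.2
  have hd := hlab (a p, b p) (a q, b q) (hY p hp).2 (hY q hq).2 hpq
  have hco := hYTR D₀ F C o p q f g hg0 hoP hpP hqP hoD hpD hqD (z p) (z q) y (hz p hp).1 (hz q hq).1 hy _ _ _ _ _ _ (hab p) (hab q) hab'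
  have hd2 : (l : OO) ∣ 10 * o.n * b' := by
    rw [← hco]
    exact Dvd.dvd.mul_left hd _
  have h10 : IsCoprime (l : OO) ((10 : ℕ) : OO) := by
    have : Nat.Coprime l 10 := by
      have h2' : Nat.Coprime l 2 := (Nat.coprime_primes hl Nat.prime_two).2 hl2
      have h5'' : Nat.Coprime l 5 := (Nat.coprime_primes hl Nat.prime_five).2 hl5
      exact Nat.Coprime.mul_right h2' h5''
    exact this.cast
  have h10' : IsCoprime (l : OO) (10 * o.n) := by
    have := h10.mul_right (hY o ho).1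
    exact_mod_cast this
  exact h10'.dvd_of_dvd_mul_left hd2

end Pool.Agent.RF
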